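import Mathlib

/-!
# Veto interval graphs have unbounded chromatic number

The shift graph on the pairs `i < j` of elements of `{0, …, 2 ^ k - 1}` is a veto interval graph of
chromatic number exactly `k`.
-/

set_option autoImplicit false

namespace Pool.Agent.Results.MP_2fc053_co.AllChromaticNumbers

/-- `G` is a veto interval graph: its vertices are represented by pairwise distinct veto intervals
`(l a, v a, r a)` with `l a < v a < r a`, and distinct vertices `a`, `b` are adjacent exactly when
`v a < l b < r a < v b` or `v b < l a < r b < v a`. -/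
def IsVetoIntervalGraph {V : Type*} (G : SimpleGraph V) : Prop :=
  ∃ l v r : V → ℝ, (∀ a, l a < v a ∧ v a < r a) ∧
    (∀ a b, a ≠ b → (l a, v a, r a) ≠ (l b, v b, r b)) ∧
    ∀ a b, a ≠ b → (G.Adj a b ↔
      (v a < l b ∧ l b < r a ∧ r a < v b) ∨ (v b < l a ∧ l a < r b ∧ r b < v a))

/-- Pairs `i < j` of natural numbers below `N`. -/
abbrev Pairs (N : ℕ) : Type := {p : Fin N × Fin N // p.1 < p.2}

/-- The shift graph: `(i, j)` is adjacent to `(j, k)`. -/
def shiftGraph (N : ℕ) : SimpleGraph (Pairs N) where
  Adj p q := p.1.2 = q.1.1 ∨ q.1.2 = p.1.1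
  symm := ⟨fun p q h => h.symm⟩
  loopless := ⟨fun p h => by
    have := p.2
    rcases h with h | h
    · exact absurd h this.ne'
    · exact absurd h this.ne'⟩

theorem shift_isVeto (N : ℕ) : IsVetoIntervalGraph (shiftGraph N) := by
  refine ⟨fun p => (p.1.1.val : ℝ) - 1 / 4, fun p => (p.1.2.val : ℝ) - 1 / 2,
    fun p => (p.1.2.val : ℝ) + 1 / 4, ?_, ?_, ?_⟩
  · intro p
    have h : p.1.1.val + 1 ≤ p.1.2.val := p.2
    have h' : (p.1.1.val : ℝ) + 1 ≤ p.1.2.val := by exact_mod_cast h
    constructor <;> linarith
  · intro p q hpq h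
    apply hpq
    simp only [Prod.mk.injEq] at h
    obtain ⟨h1, h2, -⟩ := h
    have h1' : (p.1.1.val : ℝ) = q.1.1.val := by linarith
    have h2' : (p.1.2.val : ℝ) = q.1.2.val := by linarith
    have e1 : p.1.1 = q.1.1 := Fin.ext (by exact_mod_cast h1')
    have e2 : p.1.2 = q.1.2 := Fin.ext (by exact_mod_cast h2')
    exact Subtype.ext (Prod.ext e1 e2)
  · have key : ∀ p q : Pairs N, p.1.2 = q.1.1 ↔
        ((p.1.2.val : ℝ) - 1 / 2 < (q.1.1.val : ℝ) - 1 / 4 ∧
          (q.1.1.val : ℝ) - 1 / 4 < (p.1.2.val : ℝ) + 1 / 4 ∧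
          (p.1.2.val : ℝ) + 1 / 4 < (q.1.2.val : ℝ) - 1 / 2) := by
      intro p q
      have hq : q.1.1.val + 1 ≤ q.1.2.val := q.2
      have hq' : (q.1.1.val : ℝ) + 1 ≤ q.1.2.val := by exact_mod_cast hq
      constructor
      · intro h
        rw [h]
        refine ⟨?_, ?_, ?_⟩ <;> linarith
      · rintro ⟨h1, h2, -⟩
        apply Fin.ext
        have h3 : (p.1.2.val : ℝ) < q.1.1.val + 1 := by linarith
        have h4 : (q.1.1.val : ℝ) < p.1.2.val + 1 := by linarith
        have h3' : p.1.2.val < q.1.1.val + 1 := by exact_mod_cast h3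
        have h4' : q.1.1.val < p.1.2.val + 1 := by exact_mod_cast h4
        omega
    intro p q _
    change (p.1.2 = q.1.1 ∨ q.1.2 = p.1.1) ↔ _
    rw [key p q, key q p]

theorem exists_bit (k i j : ℕ) (hij : i < j) (hj : j < 2 ^ k) :
    ∃ b : Fin k, i.testBit b.val = false ∧ j.testBit b.val = true := by
  by_contra hcon
  push Not at hcon
  have h : j &&& i = j := by
    apply Nat.eq_of_testBit_eq
    intro b
    rw [Nat.testBit_and]
    by_cases hjb : j.testBit b = true
    · by_cases hb : b < k
      · have := hcon ⟨b, hb⟩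
        by_cases hib : i.testBit b = true
        · rw [hjb, hib]; rfl
        · exact absurd hjb (this (by simpa using hib))
      · have : j.testBit b = false := by
          apply Nat.testBit_lt_two_pow
          exact lt_of_lt_of_le hj (Nat.pow_le_pow_right (by norm_num) (by omega))
        rw [this] at hjb
        exact absurd hjb (by simp)
    · rw [Bool.not_eq_true] at hjb
      rw [hjb]; rfl
  have := Nat.and_le_right (n := j) (m := i)
  omega

theorem shift_colorable (k : ℕ) : (shiftGraph (2 ^ k)).Colorable k := by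
  classical
  have hb : ∀ p : Pairs (2 ^ k), ∃ b : Fin k,
      p.1.1.val.testBit b.val = false ∧ p.1.2.val.testBit b.val = true :=
    fun p => exists_bit k _ _ p.2 p.1.2.isLt
  choose c hc1 hc2 using hb
  refine ⟨SimpleGraph.Coloring.mk c ?_⟩
  intro p q hpq heq
  rcases hpq with h | h
  · have h1 := hc2 p
    have h2 := hc1 q
    rw [heq, h, h2] at h1
    exact absurd h1 (by simp)
  · have h1 := hc2 q
    have h2 := hc1 p
    rw [← heq, h, h2] at h1
    exact absurd h1 (by simp)

theorem le_of_shift_colorable (N m : ℕ) (h : (shiftGraph N).Colorable m) : N ≤ 2 ^ m := by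
  classical
  obtain ⟨c⟩ := h
  have hinj : Function.Injective (fun i : Fin N =>
      (Finset.univ.filter (fun b : Fin m => ∃ (j : Fin N) (hij : i < j), c ⟨(i, j), hij⟩ = b))) := by
    have key : ∀ i j : Fin N, i < j →
        (Finset.univ.filter (fun b : Fin m => ∃ (l : Fin N) (hl : i < l), c ⟨(i, l), hl⟩ = b)) ≠
        (Finset.univ.filter (fun b : Fin m => ∃ (l : Fin N) (hl : j < l), c ⟨(j, l), hl⟩ = b)) := by
      intro i j hij heq
      have hmem : c ⟨(i, j), hij⟩ ∈
          (Finset.univ.filter (fun b : Fin m => ∃ (l : Fin N) (hl : i < l), c ⟨(i, l), hl⟩ = b)) := by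
        simp only [Finset.mem_filter, Finset.mem_univ, true_and]
        exact ⟨j, hij, rfl⟩
      rw [heq] at hmem
      simp only [Finset.mem_filter, Finset.mem_univ, true_and] at hmem
      obtain ⟨l, hl, hc⟩ := hmem
      have hadj : (shiftGraph N).Adj ⟨(j, l), hl⟩ ⟨(i, j), hij⟩ := Or.inr rfl
      exact c.valid hadj hc
    intro i j hij
    rcases lt_trichotomy i j with h | h | h
    · exact absurd hij (key i j h)
    · exact h
    · exact absurd hij.symm (key j i h)
  have := Fintype.card_le_of_injective _ hinj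
  simpa using this

/-- **Veto interval graphs of every chromatic number.** For every `k` there is a finite veto
interval graph with chromatic number exactly `k`. In particular one has chromatic number `5`, and
the supremum of the chromatic numbers of veto interval graphs is infinite. -/
theorem result (k : ℕ) : ∃ (V : Type) (_ : Finite V) (G : SimpleGraph V),
    IsVetoIntervalGraph G ∧ G.chromaticNumber = k := by
  refine ⟨Pairs (2 ^ k), inferInstance, shiftGraph (2 ^ k), shift_isVeto _, ?_⟩
  apply le_antisymm
  · exact SimpleGraph.chromaticNumber_le_iff_colorable.2 (shift_colorable k)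
  · by_contra hcon
    rw [not_le] at hcon
    obtain ⟨m, hm⟩ := ENat.ne_top_iff_exists.1 (ne_top_of_lt hcon)
    rw [← hm] at hcon
    have hmk : m < k := by exact_mod_cast hcon
    have hcol : (shiftGraph (2 ^ k)).Colorable m :=
      SimpleGraph.chromaticNumber_le_iff_colorable.1 hm.symm.le
    have := le_of_shift_colorable _ _ hcol
    have h2 := Nat.pow_lt_pow_right (a := 2) (by norm_num) hmk
    omega

end Pool.Agent.Results.MP_2fc053_co.AllChromaticNumbers
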